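import Pool.Agent.Helper71.UN.StD

/-! # Project UN, module LWA: laws of products of paths, first part -/

set_option autoImplicit false

open Set Filter Topology Matrix
open scoped ContDiff ComplexConjugate

namespace Pool.Agent.Helper9.UN

open Pool.Agent.Helper71.UN

theorem mu_lo {n : ℕ} {y : Fm n} {γ δ : ℝ → Fm n} (h : ∀ s, s ≤ 0 → δ s = y) (s : ℝ)
    (hs : s ≤ 1 / 2) : mu y γ δ s = γ (2 * s) := by
  funext l
  rw [mu, h (2 * s - 1) (by linarith)]
  exact add_sub_cancel_right _ _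

theorem mu_hi {n : ℕ} {y : Fm n} {γ δ : ℝ → Fm n} (h : ∀ s, 1 ≤ s → γ s = y) (s : ℝ)
    (hs : 1 / 2 ≤ s) : mu y γ δ s = δ (2 * s - 1) := by
  funext l
  rw [mu, h (2 * s) (by linarith)]
  exact add_sub_cancel_left _ _

theorem hLWA : StLWA := by
  intro n al x y z γ γ' γ'' δ δ'
  refine ⟨?_, ?_, ?_, ?_, ?_, ?_, ?_⟩
  · intro h
    exact ⟨fun p => γ p.1, fun l a b => (h.smooth l a b).comp contDiff_fst, fun p => h.ok p.1,
      fun p hp => h.left p.1 hp, fun p hp => h.right p.1 hp, fun p _ => rfl, fun p _ => rfl⟩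
  · rintro ⟨H, h1, h2, h3, h4, h5, h6⟩
    refine ⟨fun p => H (p.1, 1 - p.2), fun l a b => ?_, fun p => h2 _, fun p hp => h3 _ hp,
      fun p hp => h4 _ hp, fun p hp => ?_, fun p hp => ?_⟩
    · exact (h1 l a b).comp (contDiff_fst.prodMk (contDiff_const.sub contDiff_snd))
    · exact h6 (p.1, 1 - p.2) (by simpa using hp)
    · exact h5 (p.1, 1 - p.2) (by simpa using hp)
  · rintro ⟨H, h1, h2, h3, h4, h5, h6⟩ ⟨H', k1, k2, k3, k4, k5, k6⟩
    obtain ⟨K, hK⟩ : ∃ K : ℝ × ℝ → Fm n, K = fun p l => H (p.1, 2 * p.2) l + H' (p.1, 2 * p.2 - 1) l - H (p.1, 1) l := ⟨_, rfl⟩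
    have hlo : ∀ p : ℝ × ℝ, p.2 ≤ 1 / 2 → K p = H (p.1, 2 * p.2) := by
      intro p hp
      have e1 : H' (p.1, 2 * p.2 - 1) = γ' p.1 := k5 _ (by simp only; linarith)
      have e2 : H (p.1, 1) = γ' p.1 := h6 _ (by simp only; linarith)
      rw [hK]
      funext l
      show H (p.1, 2 * p.2) l + H' (p.1, 2 * p.2 - 1) l - H (p.1, 1) l = _
      rw [e1, e2]
      exact add_sub_cancel_right _ _
    have hhi : ∀ p : ℝ × ℝ, 1 / 2 ≤ p.2 → K p = H' (p.1, 2 * p.2 - 1) := by
      intro p hp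
      have e1 : H (p.1, 2 * p.2) = γ' p.1 := h6 _ (by simp only; linarith)
      have e2 : H (p.1, 1) = γ' p.1 := h6 _ (by simp only; linarith)
      rw [hK]
      funext l
      show H (p.1, 2 * p.2) l + H' (p.1, 2 * p.2 - 1) l - H (p.1, 1) l = _
      rw [e1, e2]
      exact add_sub_cancel_left _ _
    refine ⟨K,
      fun l a b => ?_, fun p => ?_, fun p hp => ?_, fun p hp => ?_, fun p hp => ?_,
      fun p hp => ?_⟩
    · have a1 : ContDiff ℝ ∞ fun p : ℝ × ℝ => H (p.1, 2 * p.2) l a b :=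
        (h1 l a b).comp (contDiff_fst.prodMk (contDiff_const.mul contDiff_snd))
      have a2 : ContDiff ℝ ∞ fun p : ℝ × ℝ => H' (p.1, 2 * p.2 - 1) l a b :=
        (k1 l a b).comp
          (contDiff_fst.prodMk ((contDiff_const.mul contDiff_snd).sub contDiff_const))
      have a3 : ContDiff ℝ ∞ fun p : ℝ × ℝ => H (p.1, 1) l a b :=
        (h1 l a b).comp (contDiff_fst.prodMk contDiff_const)
      rw [hK]
      exact (a1.add a2).sub a3
    · rcases le_total p.2 (1 / 2) with hp | hp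
      · rw [hlo p hp]; exact h2 _
      · rw [hhi p hp]; exact k2 _
    · rcases le_total p.2 (1 / 2) with hq | hq
      · rw [hlo p hq]; exact h3 _ hp
      · rw [hhi p hq]; exact k3 _ hp
    · rcases le_total p.2 (1 / 2) with hq | hq
      · rw [hlo p hq]; exact h4 _ hp
      · rw [hhi p hq]; exact k4 _ hp
    · rw [hlo p (by linarith)]; exact h5 _ (by simp only; linarith)
    · rw [hhi p (by linarith)]; exact k6 _ (by simp only; linarith)
  · rintro ⟨H, h1, h2, h3, h4, h5, h6⟩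
    have e0 : ∀ s, γ s = H (s, 0) := fun s => (h5 (s, 0) le_rfl).symm
    have e1 : ∀ s, γ' s = H (s, 1) := fun s => (h6 (s, 1) le_rfl).symm
    refine ⟨⟨fun l a b => ?_, fun s => ?_, fun s hs => ?_, fun s hs => ?_⟩,
      ⟨fun l a b => ?_, fun s => ?_, fun s hs => ?_, fun s hs => ?_⟩⟩
    · simp only [e0]
      exact (h1 l a b).comp (contDiff_id.prodMk contDiff_const)
    · rw [e0]; exact h2 _
    · rw [e0]; exact h3 _ hs
    · rw [e0]; exact h4 _ hs
    · simp only [e1]
      exact (h1 l a b).comp (contDiff_id.prodMk contDiff_const)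
    · rw [e1]; exact h2 _
    · rw [e1]; exact h3 _ hs
    · rw [e1]; exact h4 _ hs
  · intro h k
    have hlo := mu_lo (γ := γ) k.left
    have hhi := mu_hi (δ := δ) h.right
    refine ⟨⟨fun l a b => ?_, fun s => ?_, fun s hs => ?_, fun s hs => ?_⟩, hlo, hhi⟩
    · have a1 : ContDiff ℝ ∞ fun s : ℝ => γ (2 * s) l a b :=
        (h.smooth l a b).comp (contDiff_const.mul contDiff_id)
      have a2 : ContDiff ℝ ∞ fun s : ℝ => δ (2 * s - 1) l a b :=
        (k.smooth l a b).comp ((contDiff_const.mul contDiff_id).sub contDiff_const)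
      exact (a1.add a2).sub contDiff_const
    · rcases le_total s (1 / 2) with hs | hs
      · rw [hlo s hs]; exact h.ok _
      · rw [hhi s hs]; exact k.ok _
    · rw [hlo s (by linarith)]; exact h.left _ (by linarith)
    · rw [hhi s (by linarith)]; exact k.right _ (by linarith)
  · rintro ⟨H, h1, h2, h3, h4, h5, h6⟩ ⟨H', k1, k2, k3, k4, k5, k6⟩
    obtain ⟨K, hK⟩ : ∃ K : ℝ × ℝ → Fm n, K = fun p l => H (2 * p.1, p.2) l + H' (2 * p.1 - 1, p.2) l - y l := ⟨_, rfl⟩
    have hlo : ∀ p : ℝ × ℝ, p.1 ≤ 1 / 2 → K p = H (2 * p.1, p.2) := by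
      intro p hp
      have e1 : H' (2 * p.1 - 1, p.2) = y := k3 _ (by simp only; linarith)
      rw [hK]
      funext l
      show H (2 * p.1, p.2) l + H' (2 * p.1 - 1, p.2) l - y l = _
      rw [e1]
      exact add_sub_cancel_right _ _
    have hhi : ∀ p : ℝ × ℝ, 1 / 2 ≤ p.1 → K p = H' (2 * p.1 - 1, p.2) := by
      intro p hp
      have e1 : H (2 * p.1, p.2) = y := h4 _ (by simp only; linarith)
      rw [hK]
      funext l
      show H (2 * p.1, p.2) l + H' (2 * p.1 - 1, p.2) l - y l = _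
      rw [e1]
      exact add_sub_cancel_left _ _
    refine ⟨K,
      fun l a b => ?_, fun p => ?_, fun p hp => ?_, fun p hp => ?_, fun p hp => ?_,
      fun p hp => ?_⟩
    · have a1 : ContDiff ℝ ∞ fun p : ℝ × ℝ => H (2 * p.1, p.2) l a b :=
        (h1 l a b).comp ((contDiff_const.mul contDiff_fst).prodMk contDiff_snd)
      have a2 : ContDiff ℝ ∞ fun p : ℝ × ℝ => H' (2 * p.1 - 1, p.2) l a b :=
        (k1 l a b).comp
          (((contDiff_const.mul contDiff_fst).sub contDiff_const).prodMk contDiff_snd)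
      rw [hK]
      exact (a1.add a2).sub contDiff_const
    · rcases le_total p.1 (1 / 2) with hp | hp
      · rw [hlo p hp]; exact h2 _
      · rw [hhi p hp]; exact k2 _
    · rw [hlo p (by linarith)]; exact h3 _ (by simp only; linarith)
    · rw [hhi p (by linarith)]; exact k4 _ (by simp only; linarith)
    · have e1 : H (2 * p.1, p.2) = γ (2 * p.1) := h5 _ hp
      have e2 : H' (2 * p.1 - 1, p.2) = δ (2 * p.1 - 1) := k5 _ hp
      rw [hK]
      funext l
      show H (2 * p.1, p.2) l + H' (2 * p.1 - 1, p.2) l - y l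
        = γ (2 * p.1) l + δ (2 * p.1 - 1) l - y l
      rw [e1, e2]
    · have e1 : H (2 * p.1, p.2) = γ' (2 * p.1) := h6 _ hp
      have e2 : H' (2 * p.1 - 1, p.2) = δ' (2 * p.1 - 1) := k6 _ hp
      rw [hK]
      funext l
      show H (2 * p.1, p.2) l + H' (2 * p.1 - 1, p.2) l - y l
        = γ' (2 * p.1) l + δ' (2 * p.1 - 1) l - y l
      rw [e1, e2]
  · intro h
    refine ⟨fun l a b => ?_, fun s => h.ok _, fun s hs => ?_, fun s hs => ?_⟩
    · exact (h.smooth l a b).comp (contDiff_const.sub contDiff_id)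
    · exact h.right _ (by linarith)
    · exact h.left _ (by linarith)

end Pool.Agent.Helper9.UN
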